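import Pool.Agent.Lib.MP_25e40f_pr.DC.Exs
import Pool.Agent.Lib.MP_25e40f_pr.T.Tau
import Pool.Agent.Lib.MP_25e40f_pr.T.Arm

/-!
# MP_25e40f_pr, stream DC, file Bas: the basic families (JOBS BasA, BasB)

JOB BasA: `tau_contOn`: `p ↦ G.tau p x y` is on `[0, p₁]` the uniform limit of the polynomials `p ↦ G.tauD p (G.Lam (r+1)) x y`
(`T.tauD_continuous`): `0 ≤ τ - τ_{Λ_{r+1}} ≤ arm p x r ≤ arm p₁ x r → 0` (`T.tau_diff` for `x ∈ G.Lam r`, `T.tauD_le_tau`,
`T.arm_mono_p`, `NoPerc`); `TendstoUniformlyOn.continuousOn`. `W_trans`: the translation by `a` is an automorphism of `Wg n ι H`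
(`mem_nbZ`), as an equivalence `φ` with `b ∈ nb a ↔ φ b ∈ nb (φ a)`. `GF_tK`: invariance `T.tau_iso`, decay from the
hypothesis and `T.tau_mono_p`, continuity from `tau_contOn` and `ENNReal.continuous_ofReal`.

JOB BasB: `GF_pK`: `pK p x y = if y ∈ nb x then ofReal p else 0`: invariance `W_trans`; decay: `y ∈ nb x` gives
`nrm (x.1 - y.1) ≤ 1`, so `C = p₁ e + 1`, `c = 1` (`p₁ ≥ 0` or the interval is empty); continuity clear. `GF_wgt`: decay:
`w (y.1 - x.1) * C e^{-c k} ≤ C_w C (1 + k)^m e^{-c k} ≤ C' e^{-(c/2) k}`, because `(1+k)^m e^{-(c/2)k}` is bounded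
(`Real.tendsto_pow_mul_exp_neg_atTop_nhds_zero` or `(1+k)^m ≤ m! (2/c)^m e^{(c/2)(1+k)}`); `nrm_neg`. Continuity:
`ENNReal.Tendsto.const_mul`-type with the finite constant, i.e. `ContinuousOn.const_mul`-like
(`ENNReal.continuous_const_mul ENNReal.ofReal_ne_top`).
-/

set_option autoImplicit false
set_option linter.unusedSectionVars false

noncomputable section

open Finset Filter
open scoped Classical

namespace IPC.DC

theorem tau_contOn {V : Type} [DecidableEq V] (G : PG V) {p₁ : ℝ} (h1 : p₁ ≤ 1) (hN : G.NoPerc p₁)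
    (x y : V) : ContinuousOn (fun p => G.tau p x y) (Set.Icc 0 p₁) := by
  have hU : TendstoUniformlyOn (fun (r : ℕ) (p : ℝ) => G.tauD p (G.Lam (r + 1)) x y)
      (fun p => G.tau p x y) Filter.atTop (Set.Icc 0 p₁) := by
    rw [Metric.tendstoUniformlyOn_iff]
    intro ε hε
    obtain ⟨r₀, hr₀⟩ := G.cover x
    filter_upwards [(hN x).eventually (gt_mem_nhds hε), Filter.eventually_ge_atTop r₀] with r hr hr1 p hp
    have hx : x ∈ G.Lam r := T.Lam_mono G hr1 hr₀
    have hp1 : p ≤ 1 := hp.2.trans h1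
    have h2 := T.tau_diff G hp.1 hp1 hx y
    have h3 := T.arm_mono_p G hp.1 hp.2 h1 x r
    have h4 := T.tauD_le_tau G hp.1 hp1 (G.Lam (r + 1)) x y
    rw [Real.dist_eq, abs_of_nonneg (by linarith)]
    linarith
  exact hU.continuousOn (Filter.Frequently.of_forall (fun r => (T.tauD_continuous G _ x y).continuousOn))

/-- translation -/
def trW (n : ℕ) (ι : Type) (a : Fin n → ℤ) : W n ι ≃ W n ι where
  toFun x := (x.1 + a, x.2)
  invFun x := (x.1 - a, x.2)
  left_inv x := by simp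
  right_inv x := by simp

theorem W_trans (n : ℕ) (ι : Type) [Fintype ι] [DecidableEq ι] (H : SimpleGraph ι) (a : Fin n → ℤ)
    (x y : W n ι) : y ∈ (Wg n ι H).nb x ↔ trW n ι a y ∈ (Wg n ι H).nb (trW n ι a x) := by
  have key : ∀ (b : Fin n → ℤ) (u v : Fin n → ℤ), v ∈ nbZ n u → v + b ∈ nbZ n (u + b) := by
    intro b u v h
    rw [mem_nbZ] at h ⊢
    obtain ⟨i, s, hs, rfl⟩ := h
    refine ⟨i, s, hs, ?_⟩
    funext j
    rw [Pi.add_apply]
    by_cases hj : j = i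
    · rw [hj, Function.update_self, Function.update_self, Pi.add_apply]
      ring
    · rw [Function.update_of_ne hj, Function.update_of_ne hj, Pi.add_apply]
  have key2 : ∀ u v : Fin n → ℤ, v ∈ nbZ n u ↔ v + a ∈ nbZ n (u + a) := by
    intro u v
    refine ⟨key a u v, fun h => ?_⟩
    have h2 := key (-a) _ _ h
    rwa [add_neg_cancel_right, add_neg_cancel_right] at h2
  obtain ⟨x1, x2⟩ := x
  obtain ⟨y1, y2⟩ := y
  show (y1, y2) ∈ (nbZ n x1).image (fun y => (y, x2)) ∪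
      (Finset.univ.filter fun j => H.Adj x2 j).image (fun j => (x1, j)) ↔
    (y1 + a, y2) ∈ (nbZ n (x1 + a)).image (fun y => (y, x2)) ∪
      (Finset.univ.filter fun j => H.Adj x2 j).image (fun j => (x1 + a, j))
  simp only [Finset.mem_union, Finset.mem_image, Finset.mem_filter, Finset.mem_univ, true_and,
    Prod.mk.injEq]
  constructor
  · rintro (⟨z, hz, rfl, rfl⟩ | ⟨j, hj, rfl, rfl⟩)
    · exact Or.inl ⟨z + a, (key2 _ _).1 hz, rfl, rfl⟩
    · exact Or.inr ⟨j, hj, rfl, rfl⟩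
  · rintro (⟨z, hz, hz1, rfl⟩ | ⟨j, hj, hj1, rfl⟩)
    · rw [hz1] at hz
      exact Or.inl ⟨y1, (key2 _ _).2 hz, rfl, rfl⟩
    · exact Or.inr ⟨j, hj, add_right_cancel hj1, rfl⟩

theorem GF_tK {n : ℕ} {ι : Type} [Fintype ι] [DecidableEq ι] (H : SimpleGraph ι) {p₁ : ℝ}
    (h1 : p₁ ≤ 1) (hN : (Wg n ι H).NoPerc p₁)
    (hd : ∃ C c : ℝ, 0 < C ∧ 0 < c ∧ ∀ x y : W n ι,
      (Wg n ι H).tau p₁ x y ≤ C * Real.exp (-c * nrm (x.1 - y.1))) :
    GF n ι p₁ (fun p => (Wg n ι H).tK p) := by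
  obtain ⟨C, c, hC, hc, hd⟩ := hd
  refine ⟨?_, ⟨C, c, hC, hc, ?_⟩, ?_⟩
  · intro p h0 hp a x y
    show ENNReal.ofReal ((Wg n ι H).tau p (trW n ι a x) (trW n ι a y)) = ENNReal.ofReal ((Wg n ι H).tau p x y)
    rw [T.tau_iso (Wg n ι H) (Wg n ι H) h0 (hp.trans h1) (trW n ι a) (fun x y => W_trans n ι H a x y) x y]
  · intro p h0 hp x y
    exact ENNReal.ofReal_le_ofReal ((T.tau_mono_p (Wg n ι H) h0 hp h1 x y).trans (hd x y))
  · intro x y
    exact ENNReal.continuous_ofReal.comp_continuousOn (tau_contOn (Wg n ι H) h1 hN x y)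

theorem basB_nrm {n : ℕ} {ι : Type} [Fintype ι] [DecidableEq ι] (H : SimpleGraph ι) {x y : W n ι}
    (h : y ∈ (Wg n ι H).nb x) : nrm (x.1 - y.1) ≤ 1 := by
  obtain ⟨x1, x2⟩ := x
  obtain ⟨y1, y2⟩ := y
  have h' : (y1, y2) ∈ (nbZ n x1).image (fun y => (y, x2)) ∪
      (Finset.univ.filter fun j => H.Adj x2 j).image (fun j => (x1, j)) := h
  simp only [Finset.mem_union, Finset.mem_image, Finset.mem_filter, Finset.mem_univ, true_and,
    Prod.mk.injEq] at h'
  unfold nrm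
  refine Finset.sup_le fun j _ => ?_
  show ((x1 - y1) j).natAbs ≤ 1
  rw [Pi.sub_apply]
  rcases h' with ⟨z, hz, rfl, _⟩ | ⟨_, _, rfl, _⟩
  · rw [mem_nbZ] at hz
    obtain ⟨i, s, hs, rfl⟩ := hz
    by_cases hj : j = i
    · rw [hj, Function.update_self]
      rcases hs with rfl | rfl <;> omega
    · rw [Function.update_of_ne hj]
      omega
  · omega

theorem basB_poly {c : ℝ} (hc : 0 < c) (k : ℕ) : ∃ M : ℝ, 0 < M ∧ ∀ N : ℕ,
    (1 + (N : ℝ)) ^ k * Real.exp (-(c / 2) * N) ≤ M := by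
  refine ⟨(k.factorial : ℝ) * (2 / c) ^ k * Real.exp (c / 2), by positivity, fun N => ?_⟩
  have h1 := Real.pow_div_factorial_le_exp (c / 2 * (1 + (N : ℝ))) (by positivity) k
  rw [div_le_iff₀ (by positivity)] at h1
  have h2 : (1 + (N : ℝ)) ^ k = (2 / c) ^ k * (c / 2 * (1 + (N : ℝ))) ^ k := by
    rw [← mul_pow]
    congr 1
    field_simp
  have h3 : Real.exp (c / 2 * (1 + (N : ℝ))) * Real.exp (-(c / 2) * N) = Real.exp (c / 2) := by
    rw [← Real.exp_add]
    congr 1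
    ring
  rw [h2]
  have h4 : (2 / c) ^ k * (c / 2 * (1 + (N : ℝ))) ^ k * Real.exp (-(c / 2) * N) ≤
      (2 / c) ^ k * (Real.exp (c / 2 * (1 + (N : ℝ))) * (k.factorial : ℝ)) * Real.exp (-(c / 2) * N) :=
    mul_le_mul_of_nonneg_right (mul_le_mul_of_nonneg_left h1 (by positivity)) (Real.exp_pos _).le
  refine h4.trans (le_of_eq ?_)
  rw [← h3]
  ring

theorem GF_pK {n : ℕ} {ι : Type} [Fintype ι] [DecidableEq ι] (H : SimpleGraph ι) {p₁ : ℝ} :
    GF n ι p₁ (fun p => (Wg n ι H).pK p) := by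
  refine ⟨?_, ⟨|p₁| * Real.exp 1 + 1, 1, by positivity, one_pos, ?_⟩, ?_⟩
  · intro p h0 hp a x y
    have h2 := W_trans n ι H a x y
    show (if trW n ι a y ∈ (Wg n ι H).nb (trW n ι a x) then ENNReal.ofReal p else 0) =
      if y ∈ (Wg n ι H).nb x then ENNReal.ofReal p else 0
    by_cases h : y ∈ (Wg n ι H).nb x
    · rw [if_pos h, if_pos (h2.1 h)]
    · rw [if_neg h, if_neg (fun h' => h (h2.2 h'))]
  · intro p h0 hp x y
    show (if y ∈ (Wg n ι H).nb x then ENNReal.ofReal p else 0) ≤ _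
    by_cases h : y ∈ (Wg n ι H).nb x
    · rw [if_pos h]
      have h2 := basB_nrm H h
      refine ENNReal.ofReal_le_ofReal ?_
      have h3 : (nrm (x.1 - y.1) : ℝ) ≤ 1 := by exact_mod_cast h2
      have h4 : Real.exp (-1) ≤ Real.exp (-1 * (nrm (x.1 - y.1) : ℝ)) := Real.exp_le_exp.2 (by linarith)
      have h5 : p ≤ |p₁| := hp.trans (le_abs_self p₁)
      have h6 : Real.exp 1 * Real.exp (-1) = 1 := by rw [← Real.exp_add, add_neg_cancel, Real.exp_zero]
      have h7 : (|p₁| * Real.exp 1 + 1) * Real.exp (-1) ≤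
          (|p₁| * Real.exp 1 + 1) * Real.exp (-1 * (nrm (x.1 - y.1) : ℝ)) :=
        mul_le_mul_of_nonneg_left h4 (by positivity)
      have h8 : (|p₁| * Real.exp 1 + 1) * Real.exp (-1) = |p₁| + Real.exp (-1) := by
        linear_combination |p₁| * h6
      have h9 := Real.exp_pos (-1)
      linarith
    · rw [if_neg h]
      exact zero_le
  · intro x y
    show ContinuousOn (fun p : ℝ => if y ∈ (Wg n ι H).nb x then ENNReal.ofReal p else 0) (Set.Icc 0 p₁)
    by_cases h : y ∈ (Wg n ι H).nb x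
    · simp only [if_pos h]
      exact ENNReal.continuous_ofReal.continuousOn
    · simp only [if_neg h]
      exact continuousOn_const

theorem GF_wgt {n : ℕ} {ι : Type} {p₁ : ℝ} {f : ℝ → W n ι → W n ι → ENNReal} (hf : GF n ι p₁ f)
    {w : (Fin n → ℤ) → ℝ} (hw : PW w) : GF n ι p₁ (wgt w f) := by
  obtain ⟨Cw, k, hCw, hw⟩ := hw
  obtain ⟨C, c, hC, hc, hdec⟩ := hf.dec
  obtain ⟨M, hM0, hM⟩ := basB_poly hc k
  refine ⟨?_, ⟨Cw * C * M, c / 2, by positivity, by positivity, ?_⟩, ?_⟩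
  · intro p h0 hp a x y
    unfold wgt
    rw [hf.inv p h0 hp a x y, add_sub_add_right_eq_sub]
  · intro p h0 hp x y
    unfold wgt
    have hn : nrm (y.1 - x.1) = nrm (x.1 - y.1) := by
      have h2 := nrm_neg (x.1 - y.1)
      rw [neg_sub] at h2
      exact h2
    obtain ⟨hw0, hw1⟩ := hw (y.1 - x.1)
    rw [hn] at hw1
    refine (mul_le_mul' (ENNReal.ofReal_le_ofReal hw1) (hdec p h0 hp x y)).trans ?_
    rw [← ENNReal.ofReal_mul (by positivity)]
    refine ENNReal.ofReal_le_ofReal ?_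
    have h3 := hM (nrm (x.1 - y.1))
    generalize (nrm (x.1 - y.1) : ℝ) = N at h3 ⊢
    have e1 : Real.exp (-c * N) = Real.exp (-(c / 2) * N) * Real.exp (-(c / 2) * N) := by
      rw [← Real.exp_add]
      congr 1
      ring
    rw [e1]
    have h4 : Cw * C * ((1 + N) ^ k * Real.exp (-(c / 2) * N)) * Real.exp (-(c / 2) * N) ≤
        Cw * C * M * Real.exp (-(c / 2) * N) :=
      mul_le_mul_of_nonneg_right (mul_le_mul_of_nonneg_left h3 (by positivity)) (Real.exp_pos _).le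
    refine le_trans (le_of_eq ?_) h4
    ring
  · intro x y
    exact (ENNReal.continuous_const_mul ENNReal.ofReal_ne_top).comp_continuousOn (hf.cont x y)

end IPC.DC
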