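import Pool.Agent.Lib.MP_25e40f_pr.DC.Exs

/-!
# MP_25e40f_pr, stream DC, file Frb: the forbidden interval (JOBS FrbA, FrbB)

JOB FrbA: `sup_left`: `f p x y ≤ a` for all `p < s` gives `f s x y ≤ a` by continuity (`s > 0`: the filter of the `p < s` in
`[0, p₁]` is not trivial; `le_of_tendsto`); then the supremum. `sup_right`: by `inv` (with `a = -x.1`) it suffices to bound
`f q (0, i) y` for `i : ι` (finite) and `y : W n ι`. By `dec` there is `R` with `f q (0, i) y ≤ ε` for all `q ∈ [0, p₁]` and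
`nrm y.1 > R` (`nrm (0 - y.1) = nrm y.1`); there are finitely many other pairs `((0, i), y)`, `nrm y.1 ≤ R` (`ι` finite), and for each of
them, by continuity at `s`, `f q (0, i) y ≤ f s (0, i) y + ε ≤ ksup (f s) + ε` for `q ∈ [0, p₁]` near `s` (all values are finite);
`eventually_all_finset`.

JOB FrbB: `forbidden`: let `S = {s ∈ [0, p₁] | ∀ q ∈ [0, s], ∀ j, ksup (f j q) ≤ ofReal a}`, `0 ∈ S`, `s₀ = sSup S`. All `q < s₀`
satisfy the bound, and `s₀` too (`sup_left`, or `s₀ = 0`). If `s₀ < p₁`: `ε = (δ - a)`, `sup_right` for the finitely many `j` gives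
`q₀ > s₀`, `q₀ ≤ p₁`, with `ksup (f j q) ≤ ofReal a + ofReal (δ - a) = ofReal δ` for `q ∈ (s₀, q₀)`, so by `himp`
`ksup (f j q) ≤ ofReal a` for these `q`: contradiction to the definition of `s₀` (`(s₀ + q₀)/2 ∈ S`). So `s₀ = p₁ ∈ S`.
(Alternatively use `IsPreconnected`/`IsClosed.Icc_subset_of_forall_mem_nhdsWithin` for the closed set `S`.)
-/

set_option autoImplicit false
set_option linter.unusedSectionVars false

noncomputable section

open Finset Filter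
open scoped Classical

namespace IPC.DC

theorem sup_left {n : ℕ} {ι : Type} {p₁ : ℝ} {f : ℝ → W n ι → W n ι → ENNReal} (hf : GF n ι p₁ f)
    {s : ℝ} (hs : 0 < s) (hs1 : s ≤ p₁) {a : ENNReal} (h : ∀ q, 0 ≤ q → q < s → ksup (f q) ≤ a) :
    ksup (f s) ≤ a := by
  refine iSup₂_le fun x y => ?_
  have hc : ContinuousWithinAt (fun p => f p x y) (Set.Ico 0 s) s :=
    (hf.cont x y s ⟨hs.le, hs1⟩).mono fun q hq => ⟨hq.1, hq.2.le.trans hs1⟩
  have hne : (nhdsWithin s (Set.Ico 0 s)).NeBot := by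
    rw [← mem_closure_iff_nhdsWithin_neBot, closure_Ico hs.ne]
    exact ⟨hs.le, le_refl s⟩
  refine le_of_tendsto hc ?_
  filter_upwards [self_mem_nhdsWithin] with q hq
  exact (le_iSup₂ (f := fun x y => f q x y) x y).trans (h q hq.1 hq.2)

theorem sup_right {n : ℕ} {ι : Type} [Fintype ι] {p₁ : ℝ} {f : ℝ → W n ι → W n ι → ENNReal}
    (hf : GF n ι p₁ f) {s : ℝ} (hs : 0 ≤ s) (hs1 : s < p₁) {ε : ℝ} (hε : 0 < ε) :
    ∃ q₀, s < q₀ ∧ q₀ ≤ p₁ ∧ ∀ q, s < q → q < q₀ → ksup (f q) ≤ ksup (f s) + ENNReal.ofReal ε := by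
  obtain ⟨C, c, hC, hc, hdec⟩ := hf.dec
  have h1 : ∃ R : ℕ, ∀ m : ℕ, R < m → C * Real.exp (-c * m) ≤ ε := by
    have h2 : Tendsto (fun m : ℕ => C * Real.exp (-(c * m))) atTop (nhds (C * 0)) :=
      (Real.tendsto_exp_neg_atTop_nhds_zero.comp
        (tendsto_natCast_atTop_atTop.const_mul_atTop hc)).const_mul C
    rw [mul_zero] at h2
    obtain ⟨R, hR⟩ := eventually_atTop.1 ((tendsto_order.1 h2).2 ε hε)
    refine ⟨R, fun m hm => ?_⟩
    have h3 := hR m hm.le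
    rw [← neg_mul] at h3
    exact h3.le
  obtain ⟨R, hR⟩ := h1
  obtain ⟨T, hT⟩ : ∃ T : Finset (ι × ((Fin n → ℤ) × ι)), T = (Finset.univ : Finset ι) ×ˢ
      ((Fintype.piFinset fun _ : Fin n => Finset.Icc (-(R : ℤ)) R) ×ˢ (Finset.univ : Finset ι)) :=
    ⟨_, rfl⟩
  have hev : ∀ t ∈ T, ∀ᶠ q in nhdsWithin s (Set.Icc 0 p₁),
      f q (0, t.1) t.2 ≤ ksup (f s) + ENNReal.ofReal ε := by
    intro t _
    have h2 : ContinuousWithinAt (fun p => f p (0, t.1) t.2) (Set.Icc 0 p₁) s :=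
      hf.cont (0, t.1) t.2 s ⟨hs, hs1.le⟩
    have h3 : f s (0, t.1) t.2 ≠ ⊤ :=
      ne_top_of_le_ne_top ENNReal.ofReal_ne_top (hdec s hs hs1.le (0, t.1) t.2)
    have h4 : f s (0, t.1) t.2 < f s (0, t.1) t.2 + ENNReal.ofReal ε :=
      ENNReal.lt_add_right h3 (ENNReal.ofReal_pos.2 hε).ne'
    have h5 : f s (0, t.1) t.2 + ENNReal.ofReal ε ≤ ksup (f s) + ENNReal.ofReal ε :=
      add_le_add (le_iSup₂ (f := fun x y => f s x y) (0, t.1) t.2) le_rfl
    filter_upwards [(tendsto_order.1 h2).2 _ h4] with q hq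
    exact hq.le.trans h5
  have hall := (Filter.eventually_all_finset T).2 hev
  obtain ⟨δ, hδ, hball⟩ := Metric.mem_nhdsWithin_iff.1 hall
  refine ⟨min p₁ (s + δ), lt_min hs1 (by linarith), min_le_left _ _, fun q hq1 hq2 => ?_⟩
  have hqp : q < p₁ := hq2.trans_le (min_le_left _ _)
  have hqd : q < s + δ := hq2.trans_le (min_le_right _ _)
  have hq0 : 0 ≤ q := hs.trans hq1.le
  have hmem : ∀ t ∈ T, f q (0, t.1) t.2 ≤ ksup (f s) + ENNReal.ofReal ε := by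
    refine hball ⟨?_, hq0, hqp.le⟩
    rw [Metric.mem_ball, Real.dist_eq, abs_lt]
    constructor <;> linarith
  refine iSup₂_le fun x y => ?_
  have h2 := hf.inv q hq0 hqp.le (-x.1) x y
  rw [add_neg_cancel] at h2
  rw [← h2]
  by_cases hn : nrm (y.1 + -x.1) ≤ R
  · refine hmem (x.2, (y.1 + -x.1, y.2)) ?_
    rw [hT, Finset.mem_product]
    refine ⟨Finset.mem_univ _, ?_⟩
    rw [Finset.mem_product]
    refine ⟨?_, Finset.mem_univ _⟩
    rw [Fintype.mem_piFinset]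
    intro j
    have h3 : ((y.1 + -x.1) j).natAbs ≤ nrm (y.1 + -x.1) :=
      Finset.le_sup (f := fun i => ((y.1 + -x.1) i).natAbs) (Finset.mem_univ j)
    have h4 : ((y.1 + -x.1) j).natAbs ≤ R := h3.trans hn
    show (y.1 + -x.1) j ∈ Finset.Icc (-(R : ℤ)) R
    rw [Finset.mem_Icc]
    constructor <;> omega
  · have h3 := hdec q hq0 hqp.le (0, x.2) (y.1 + -x.1, y.2)
    rw [zero_sub, nrm_neg] at h3
    refine h3.trans ?_
    have h4 := hR (nrm (y.1 + -x.1)) (by omega)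
    exact (ENNReal.ofReal_le_ofReal h4).trans le_add_self

theorem forbidden {n : ℕ} {ι J : Type} [Fintype ι] [Fintype J] {p₁ : ℝ} (hp : 0 ≤ p₁)
    (f : J → ℝ → W n ι → W n ι → ENNReal) (hf : ∀ j, GF n ι p₁ (f j)) {a δ : ℝ} (ha : 0 ≤ a)
    (haδ : a < δ) (h0 : ∀ j, ksup (f j 0) ≤ ENNReal.ofReal a)
    (himp : ∀ p, 0 ≤ p → p ≤ p₁ → (∀ j, ksup (f j p) ≤ ENNReal.ofReal δ) →
      ∀ j, ksup (f j p) ≤ ENNReal.ofReal a) :
    ∀ p, 0 ≤ p → p ≤ p₁ → ∀ j, ksup (f j p) ≤ ENNReal.ofReal a := by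
  set S : Set ℝ := {s | (0 ≤ s ∧ s ≤ p₁) ∧
    ∀ q, 0 ≤ q → q ≤ s → ∀ j, ksup (f j q) ≤ ENNReal.ofReal a} with hS
  have h0S : (0 : ℝ) ∈ S := by
    refine ⟨⟨le_rfl, hp⟩, fun q hq0 hq1 j => ?_⟩
    rw [le_antisymm hq1 hq0]
    exact h0 j
  have hbdd : BddAbove S := ⟨p₁, fun s hs => hs.1.2⟩
  have hs0 : 0 ≤ sSup S := le_csSup hbdd h0S
  have hs1 : sSup S ≤ p₁ := csSup_le ⟨0, h0S⟩ fun s hs => hs.1.2
  set s₀ : ℝ := sSup S with hs₀
  have hlt : ∀ q, 0 ≤ q → q < s₀ → ∀ j, ksup (f j q) ≤ ENNReal.ofReal a := by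
    intro q hq0 hq1 j
    obtain ⟨s, hs, hqs⟩ := exists_lt_of_lt_csSup ⟨0, h0S⟩ hq1
    exact hs.2 q hq0 hqs.le j
  have heq : ∀ j, ksup (f j s₀) ≤ ENNReal.ofReal a := by
    intro j
    rcases eq_or_lt_of_le hs0 with h | h
    · rw [← h]
      exact h0 j
    · exact sup_left (hf j) h hs1 fun q hq0 hq1 => hlt q hq0 hq1 j
  rcases eq_or_lt_of_le hs1 with h1 | h1
  · intro p hp0 hp1 j
    rcases eq_or_lt_of_le hp1 with h2 | h2
    · rw [h2, ← h1]
      exact heq j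
    · exact hlt p hp0 (h1 ▸ h2) j
  · exfalso
    have hfin : ∀ T : Finset J, ∃ q₀, s₀ < q₀ ∧ q₀ ≤ p₁ ∧ ∀ j ∈ T, ∀ q, s₀ < q → q < q₀ →
        ksup (f j q) ≤ ksup (f j s₀) + ENNReal.ofReal (δ - a) := by
      intro T
      induction T using Finset.induction_on with
      | empty => exact ⟨p₁, h1, le_rfl, fun j hj => absurd hj (Finset.notMem_empty j)⟩
      | insert j T _ ih =>
        obtain ⟨q₁, hq1, hq2, hq3⟩ := ih
        obtain ⟨q₂, hr1, hr2, hr3⟩ := sup_right (hf j) hs0 h1 (sub_pos.2 haδ)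
        refine ⟨min q₁ q₂, lt_min hq1 hr1, (min_le_left _ _).trans hq2, fun i hi q hsq hq => ?_⟩
        rcases Finset.mem_insert.1 hi with rfl | hi
        · exact hr3 q hsq (hq.trans_le (min_le_right _ _))
        · exact hq3 i hi q hsq (hq.trans_le (min_le_left _ _))
    obtain ⟨q₀, hq1, hq2, hq3⟩ := hfin Finset.univ
    have hgood : ∀ q, s₀ < q → q < q₀ → ∀ j, ksup (f j q) ≤ ENNReal.ofReal a := by
      intro q hsq hq
      apply himp q (hs0.trans hsq.le) (hq.le.trans hq2)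
      intro j
      calc ksup (f j q) ≤ ksup (f j s₀) + ENNReal.ofReal (δ - a) :=
            hq3 j (Finset.mem_univ j) q hsq hq
        _ ≤ ENNReal.ofReal a + ENNReal.ofReal (δ - a) := by gcongr; exact heq j
        _ = ENNReal.ofReal δ := by
            rw [← ENNReal.ofReal_add ha (sub_pos.2 haδ).le, add_sub_cancel]
    have hmid : (s₀ + q₀) / 2 ∈ S := by
      refine ⟨⟨by linarith, by linarith⟩, fun q hq0 hq j => ?_⟩
      rcases lt_trichotomy q s₀ with h | h | h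
      · exact hlt q hq0 h j
      · rw [h]
        exact heq j
      · exact hgood q h (by linarith) j
    have := le_csSup hbdd hmid
    linarith

end IPC.DC
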