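import Pool.Agent.Lib.MP_25e40f_pr.DC.Kml
import Pool.Agent.Lib.MP_25e40f_pr.DC.Bas
import Pool.Agent.Lib.MP_25e40f_pr.DC.Frb
import Pool.Agent.Lib.MP_25e40f_pr.D.Defs

/-!
# MP_25e40f_pr, stream DC: the bootstrap from the improvement step
-/

set_option autoImplicit false
set_option linter.unusedSectionVars false

noncomputable section

open Finset Filter
open scoped Classical

namespace IPC.DC

/-- exponential decay below the critical point (output of stream S) -/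
def DecW : Prop := ∀ (n : ℕ), 1 ≤ n → ∀ (ι : Type) [Fintype ι] [DecidableEq ι] (H : SimpleGraph ι)
    (p : ℝ), 0 ≤ p → p < (Wg n ι H).pc → p ≤ 1 / 2 →
    ∃ C c : ℝ, 0 < C ∧ 0 < c ∧ ∀ x y : (Fin n → ℤ) × ι,
      (Wg n ι H).tau p x y ≤ C * Real.exp (-c * nrm (x.1 - y.1))

/-- `|z|²` -/
def sqw {n : ℕ} (z : Fin n → ℤ) : ℝ := ∑ i, ((z i : ℤ) : ℝ) ^ 2

theorem natAbs_le_nrm {n : ℕ} (z : Fin n → ℤ) (i : Fin n) : |((z i : ℤ) : ℝ)| ≤ nrm z := by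
  have h1 : (z i).natAbs ≤ nrm z := Finset.le_sup (f := fun i => (z i).natAbs) (Finset.mem_univ i)
  have h2 : |((z i : ℤ) : ℝ)| = (((z i).natAbs : ℕ) : ℝ) := by
    rw [Nat.cast_natAbs, Int.cast_abs]
  rw [h2]
  exact_mod_cast h1

theorem PW_sqw (n : ℕ) : PW (sqw (n := n)) := by
  refine ⟨n + 1, 2, by positivity, fun z => ⟨Finset.sum_nonneg fun i _ => sq_nonneg _, ?_⟩⟩
  have h1 : sqw z ≤ ∑ _i : Fin n, (nrm z : ℝ) ^ 2 := by
    unfold sqw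
    refine Finset.sum_le_sum fun i _ => ?_
    rw [← sq_abs]
    exact pow_le_pow_left₀ (abs_nonneg _) (natAbs_le_nrm z i) 2
  rw [Finset.sum_const, Finset.card_univ, Fintype.card_fin, nsmul_eq_mul] at h1
  have h2 : (0 : ℝ) ≤ nrm z := Nat.cast_nonneg _
  have h3 : (0 : ℝ) ≤ n := Nat.cast_nonneg _
  nlinarith [mul_nonneg h3 h2, sq_nonneg (nrm z : ℝ)]

variable {n : ℕ} {ι : Type} [Fintype ι] [DecidableEq ι] (H : SimpleGraph ι)

/-- the three families of kernels of the bootstrap -/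
def Fam (j : Fin 3) (p : ℝ) : W n ι → W n ι → ENNReal :=
  if j = 0 then
    kmul (kmul ((Wg n ι H).pK p) ((Wg n ι H).tK p)) (kmul ((Wg n ι H).tK p)
      (kmul ((Wg n ι H).tK p) ((Wg n ι H).tK p)))
  else if j = 1 then
    kmul (wgt sqw (fun p => kmul ((Wg n ι H).pK p) ((Wg n ι H).tK p)) p) (kmul ((Wg n ι H).tK p)
      (kmul ((Wg n ι H).tK p) ((Wg n ι H).tK p)))
  else
    kmul ((Wg n ι H).tK p) (kmul (wgt sqw (fun p => kmul ((Wg n ι H).pK p) ((Wg n ι H).tK p)) p)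
      (kmul ((Wg n ι H).tK p) ((Wg n ι H).tK p)))

theorem wt_w2 (p : ℝ) : wt BS.w2 (mm ((Wg n ι H).pK p) ((Wg n ι H).tK p)) =
    wgt sqw (fun p => kmul ((Wg n ι H).pK p) ((Wg n ι H).tK p)) p := by
  funext x y
  show BS.w2 x y * _ = ENNReal.ofReal (sqw (y.1 - x.1)) * _
  have h1 : BS.w2 x y = ENNReal.ofReal (sqw (y.1 - x.1)) := by
    unfold BS.w2 sqw
    congr 1
    refine Finset.sum_congr rfl fun i _ => ?_
    rw [Pi.sub_apply]
    push_cast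
    ring
  rw [h1]
  rfl

theorem sml_iff (p : ℝ) (δ : ENNReal) : BS.Sml n ι H p δ ↔
    ∀ j : Fin 3, ksup (Fam (n := n) H j p) ≤ δ := by
  have e0 : Fam H 0 p = ch4 (mm ((Wg n ι H).pK p) ((Wg n ι H).tK p)) ((Wg n ι H).tK p)
    ((Wg n ι H).tK p) ((Wg n ι H).tK p) := rfl
  have e1 : Fam H 1 p = ch4 (wt BS.w2 (mm ((Wg n ι H).pK p) ((Wg n ι H).tK p))) ((Wg n ι H).tK p)
    ((Wg n ι H).tK p) ((Wg n ι H).tK p) := by
    rw [wt_w2]
    rfl
  have e2 : Fam H 2 p = ch4 ((Wg n ι H).tK p) (wt BS.w2 (mm ((Wg n ι H).pK p) ((Wg n ι H).tK p)))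
    ((Wg n ι H).tK p) ((Wg n ι H).tK p) := by
    rw [wt_w2]
    rfl
  constructor
  · intro h j
    fin_cases j
    · exact iSup_le fun x => iSup_le fun y => by
        show Fam H 0 p x y ≤ δ
        rw [e0]; exact h.q x y
    · exact iSup_le fun x => iSup_le fun y => by
        show Fam H 1 p x y ≤ δ
        rw [e1]; exact h.d0 x y
    · exact iSup_le fun x => iSup_le fun y => by
        show Fam H 2 p x y ≤ δ
        rw [e2]; exact h.d1 x y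
  · intro h
    have hle : ∀ (j : Fin 3) x y, Fam H j p x y ≤ δ := fun j x y =>
      ((le_iSup (fun y => Fam H j p x y) y).trans (le_iSup (fun x => ⨆ y, Fam H j p x y) x)).trans (h j)
    refine ⟨fun x y => ?_, fun x y => ?_, fun x y => ?_⟩
    · rw [← e0]; exact hle 0 x y
    · rw [← e1]; exact hle 1 x y
    · rw [← e2]; exact hle 2 x y

theorem pK_zero (x y : W n ι) : (Wg n ι H).pK 0 x y = 0 := by
  unfold PG.pK
  rw [ENNReal.ofReal_zero]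
  split_ifs <;> rfl

theorem fam_zero (j : Fin 3) : ksup (Fam (n := n) H j 0) = 0 := by
  have h0 : kmul ((Wg n ι H).pK 0) ((Wg n ι H).tK 0) = fun _ _ => 0 := by
    funext x y
    unfold kmul
    simp only [pK_zero, zero_mul, tsum_zero]
  have h1 : wgt sqw (fun p => kmul ((Wg n ι H).pK p) ((Wg n ι H).tK p)) 0 = fun _ _ => 0 := by
    funext x y
    show _ * kmul ((Wg n ι H).pK 0) ((Wg n ι H).tK 0) x y = 0
    rw [h0, mul_zero]
  have hz : ∀ g : W n ι → W n ι → ENNReal, kmul (fun _ _ => 0) g = fun _ _ => 0 := by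
    intro g
    funext x y
    unfold kmul
    simp only [zero_mul, tsum_zero]
  have hz' : ∀ g : W n ι → W n ι → ENNReal, kmul g (fun _ _ => 0) = fun _ _ => 0 := by
    intro g
    funext x y
    unfold kmul
    simp only [mul_zero, tsum_zero]
  have h2 : Fam (n := n) H j 0 = fun _ _ => 0 := by
    unfold Fam
    split_ifs
    · rw [h0, hz]
    · rw [h1, hz]
    · rw [h1, hz, hz']
  rw [h2]
  unfold ksup
  simp

theorem fam_GF {p₁ : ℝ} (h1 : p₁ ≤ 1) (hN : (Wg n ι H).NoPerc p₁)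
    (hd : ∃ C c : ℝ, 0 < C ∧ 0 < c ∧ ∀ x y : W n ι,
      (Wg n ι H).tau p₁ x y ≤ C * Real.exp (-c * nrm (x.1 - y.1))) (j : Fin 3) :
    GF n ι p₁ (Fam H j) := by
  have hτ := GF_tK H h1 hN hd
  have hP : GF n ι p₁ (fun p => (Wg n ι H).pK p) := GF_pK H
  have hPτ : GF n ι p₁ (fun p => kmul ((Wg n ι H).pK p) ((Wg n ι H).tK p)) := GF_kmul hP hτ
  have hw := GF_wgt hPτ (PW_sqw n)
  have h2 : GF n ι p₁ (fun p => kmul ((Wg n ι H).tK p) ((Wg n ι H).tK p)) := GF_kmul hτ hτ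
  have h3 := GF_kmul hτ h2
  fin_cases j
  · exact GF_kmul hPτ h3
  · exact GF_kmul hw h3
  · exact GF_kmul hτ (GF_kmul hw h2)

theorem boot_strong (hD : DecW) (hI : ∃ (n₀ : ℕ) (C₀ : ℝ), BS.Improve n₀ C₀) :
    ∃ (n₀ : ℕ) (C₀ : ℝ), 0 < C₀ ∧ 1 ≤ n₀ ∧ ∀ n, n₀ ≤ n → ∀ (ι : Type) [Fintype ι] [DecidableEq ι]
      [Nonempty ι] (H : SimpleGraph ι), (∀ i, (Finset.univ.filter fun j => H.Adj i j).card ≤ 2) →
      ∀ p : ℝ, 0 ≤ p → p < (Wg n ι H).pc → p ≤ 1 / 2 →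
        2 * n * p ≤ 1 + C₀ / Real.sqrt n ∧ BS.Sml n ι H p (ENNReal.ofReal (C₀ / Real.sqrt n)) := by
  obtain ⟨n₀, C₀, hC₀, hI⟩ := hI
  obtain ⟨n₁, hn₁⟩ : ∃ n₁ : ℕ, (C₀ / BS.dl0) ^ 2 < n₁ := exists_nat_gt _
  refine ⟨max n₀ (max n₁ 1), C₀, hC₀, (le_max_right _ _).trans (le_max_right _ _), ?_⟩
  intro n hn ι _ _ _ H hH p hp0 hp hp2
  have hn0 : n₀ ≤ n := (le_max_left _ _).trans hn
  have hn1 : n₁ ≤ n := ((le_max_left _ _).trans (le_max_right _ _)).trans hn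
  have hn2 : 1 ≤ n := ((le_max_right _ _).trans (le_max_right _ _)).trans hn
  have hdl : (0 : ℝ) < BS.dl0 := by unfold BS.dl0; positivity
  have hsq : C₀ / BS.dl0 < Real.sqrt n := by
    rw [Real.lt_sqrt (by positivity)]
    exact hn₁.trans_le (by exact_mod_cast hn1)
  have hs0 : 0 < Real.sqrt n := (by positivity : 0 < C₀ / BS.dl0).trans hsq
  have ha : C₀ / Real.sqrt n < BS.dl0 := by
    rw [div_lt_iff₀ hs0]
    rw [div_lt_iff₀ hdl] at hsq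
    linarith
  have ha0 : 0 ≤ C₀ / Real.sqrt n := by positivity
  have key := forbidden hp0 (Fam H) (fam_GF H (by linarith) (T.noPerc_of_lt _ hp0 hp)
    (hD n hn2 ι H p hp0 hp hp2)) ha0 ha (fun j => by rw [fam_zero]; exact zero_le)
    (fun q hq0 hq1 hq => (sml_iff H q _).1 (hI n hn0 ι H hH q hq0 (hq1.trans_lt hp)
      (hq1.trans hp2) ((sml_iff H q _).2 hq)).2)
  have hS : BS.Sml n ι H p (ENNReal.ofReal (C₀ / Real.sqrt n)) :=
    (sml_iff H p _).2 (key p hp0 le_rfl)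
  have hS' : BS.Sml n ι H p (ENNReal.ofReal BS.dl0) := by
    refine (sml_iff H p _).2 fun j => (key p hp0 le_rfl j).trans ?_
    exact ENNReal.ofReal_le_ofReal ha.le
  exact ⟨(hI n hn0 ι H hH p hp0 hp hp2 hS').1, hS⟩

theorem Qt_le_of_sml {p : ℝ} {δ : ENNReal} (h : BS.Sml n ι H p δ) : DP.Qt (Wg n ι H) p ≤ δ := by
  refine iSup_le fun x => iSup_le fun y => ?_
  have h1 : kmul ((Wg n ι H).pK p) (kmul ((Wg n ι H).tK p) (kmul ((Wg n ι H).tK p)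
      (kmul ((Wg n ι H).tK p) ((Wg n ι H).tK p)))) =
      ch4 (mm ((Wg n ι H).pK p) ((Wg n ι H).tK p)) ((Wg n ι H).tK p)
        ((Wg n ι H).tK p) ((Wg n ι H).tK p) := by
    unfold ch4
    rw [mm_assoc]
    rfl
  rw [h1]
  exact h.q x y

theorem boot (hD : DecW) (hI : ∃ (n₀ : ℕ) (C₀ : ℝ), BS.Improve n₀ C₀) :
    ∃ (n₀ : ℕ) (C₀ : ℝ), DP.Boot n₀ C₀ := by
  obtain ⟨n₀, C₀, _, _, h⟩ := boot_strong hD hI
  refine ⟨n₀, C₀, fun n hn ι _ _ _ H hH p hp0 hp hp2 => ?_⟩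
  obtain ⟨h1, h2⟩ := h n hn ι H hH p hp0 hp hp2
  exact ⟨h1, Qt_le_of_sml H h2⟩

end IPC.DC
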