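import Pool.Agent.Lib.MP_25e40f_pr.DP.Defs

/-!
# MP_25e40f_pr, stream DC (continuity in `p` and the forbidden interval, part D6 of the bootstrap): definitions

`W n ι = ℤⁿ × ι`. `GF n ι p₁ f`: the family of kernels `f p`, `0 ≤ p ≤ p₁`, is invariant under the translations of `ℤⁿ`, decays
exponentially uniformly in `p` and is continuous in `p` for fixed `x, y`.
-/

set_option autoImplicit false

noncomputable section

open Finset Filter
open scoped Classical

namespace IPC.DC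

/-- vertices of `ℤⁿ × ι` -/
abbrev W (n : ℕ) (ι : Type) : Type := (Fin n → ℤ) × ι

/-- good families of kernels -/
structure GF (n : ℕ) (ι : Type) (p₁ : ℝ) (f : ℝ → W n ι → W n ι → ENNReal) : Prop where
  inv : ∀ p, 0 ≤ p → p ≤ p₁ → ∀ (a : Fin n → ℤ) (x y : W n ι),
    f p (x.1 + a, x.2) (y.1 + a, y.2) = f p x y
  dec : ∃ C c : ℝ, 0 < C ∧ 0 < c ∧ ∀ p, 0 ≤ p → p ≤ p₁ → ∀ x y : W n ι,
    f p x y ≤ ENNReal.ofReal (C * Real.exp (-c * nrm (x.1 - y.1)))
  cont : ∀ x y, ContinuousOn (fun p => f p x y) (Set.Icc 0 p₁)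

/-- polynomially bounded weight -/
def PW {n : ℕ} (w : (Fin n → ℤ) → ℝ) : Prop :=
  ∃ (C : ℝ) (k : ℕ), 0 < C ∧ ∀ x, 0 ≤ w x ∧ w x ≤ C * (1 + nrm x) ^ k

/-- the kernel `f` with the weight `w (y - x)` -/
def wgt {n : ℕ} {ι : Type} (w : (Fin n → ℤ) → ℝ) (f : ℝ → W n ι → W n ι → ENNReal) (p : ℝ)
    (x y : W n ι) : ENNReal := ENNReal.ofReal (w (y.1 - x.1)) * f p x y

theorem nrm_add_le {n : ℕ} (x y : Fin n → ℤ) : nrm (x + y) ≤ nrm x + nrm y := by
  unfold nrm
  refine Finset.sup_le fun i _ => ?_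
  have h1 : (x i).natAbs ≤ Finset.univ.sup fun i => (x i).natAbs :=
    Finset.le_sup (f := fun i => (x i).natAbs) (Finset.mem_univ i)
  have h2 : (y i).natAbs ≤ Finset.univ.sup fun i => (y i).natAbs :=
    Finset.le_sup (f := fun i => (y i).natAbs) (Finset.mem_univ i)
  have h3 : ((x + y) i).natAbs ≤ (x i).natAbs + (y i).natAbs := Int.natAbs_add_le (x i) (y i)
  omega

theorem nrm_neg {n : ℕ} (x : Fin n → ℤ) : nrm (-x) = nrm x := by
  unfold nrm
  congr 1
  funext i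
  exact Int.natAbs_neg (x i)

theorem nrm_tri {n : ℕ} (x y z : Fin n → ℤ) : nrm (x - y) ≤ nrm (x - z) + nrm (z - y) := by
  have h := nrm_add_le (x - z) (z - y)
  rwa [sub_add_sub_cancel] at h

end IPC.DC
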