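import Pool.Agent.Lib.MP_25e40f_pr.DC.Defs

/-!
# MP_25e40f_pr, stream DC, file Exs: exponential sums (JOB Exs)

* `summable_exp`: over `Fin n → ℤ`: `nrm x ≥ (1/n) ∑ i, |x i|` for `n ≥ 1`, so `exp (-c nrm x) ≤ ∏ i, exp (-(c/n) |x i|)`, and the
  product over `i` of summable functions on `ℤ` is summable on `Fin n → ℤ` (induction on `n` with `Fin.consEquiv`, or
  `Summable` of products; alternatively count: the number of `x` with `nrm x = k` is at most `(2k+1)^n`, and
  `∑ k, (2k+1)^n exp(-c k) < ∞`: `summable_of_sum_le` over the finite sets contained in boxes; any proof is fine). `n = 0`: one point.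
* `expSum_lt_top`: on `W n ι` (ι finite): the sum over `(z, j)` is `card ι` times the sum over `z` (`ENNReal.tsum_prod`,
  `Finset.sum_const`), translated by `x` (`Equiv.subLeft`/`Equiv.tsum_eq`): finite and independent of `x`.
* `conv_exp`: with `m = min c c'`: `exp(-c|x-z|) exp(-c'|z-y|) ≤ exp(-m(|x-z|+|z-y|)) ≤ exp(-(m/2)|x-y|) exp(-(m/2)|x-z|)`
  (`nrm_tri`), and sum over `z` with `expSum_lt_top`.
* `tail_small`: for `ε > 0` there is `R` such that `C exp(-c k) ≤ ε` for `k ≥ R` (`Real.exp_neg`, `tendsto`).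
-/

set_option autoImplicit false
set_option linter.unusedSectionVars false

noncomputable section

open Finset Filter
open scoped Classical

namespace IPC.DC

private theorem exs_int {a : ℝ} (ha : 0 < a) :
    Summable fun k : ℤ => Real.exp (-a * |(k : ℝ)|) := by
  have h : Summable fun k : ℕ => Real.exp (-a * (k : ℝ)) := by
    have h0 := (Real.summable_exp_nat_mul_iff (a := -a)).2 (by linarith)
    refine h0.congr fun k => ?_
    rw [mul_comm]
  refine Summable.of_nat_of_neg (h.congr fun k => ?_) (h.congr fun k => ?_)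
  · simp
  · simp

private theorem exs_prod (n : ℕ) (f : ℤ → ℝ) (h0 : ∀ k, 0 ≤ f k) (hf : Summable f) :
    Summable fun x : Fin n → ℤ => ∏ i, f (x i) := by
  refine summable_of_sum_le (c := (∑' k, f k) ^ n) (fun x => Finset.prod_nonneg fun i _ => h0 _) ?_
  intro T
  have hsub : T ⊆ Fintype.piFinset fun i : Fin n => T.image fun x => x i := by
    intro x hx
    rw [Fintype.mem_piFinset]
    intro i
    exact Finset.mem_image_of_mem (fun x : Fin n → ℤ => x i) hx
  refine (Finset.sum_le_sum_of_subset_of_nonneg hsub fun x _ _ =>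
    Finset.prod_nonneg fun i _ => h0 _).trans ?_
  rw [← Finset.prod_univ_sum (fun i : Fin n => T.image fun x => x i) (fun _ k => f k)]
  refine (Finset.prod_le_prod (fun i _ => Finset.sum_nonneg fun k _ => h0 k)
    (fun i _ => hf.sum_le_tsum _ (fun k _ => h0 k))).trans (le_of_eq ?_)
  rw [Finset.prod_const, Finset.card_univ, Fintype.card_fin]

theorem summable_exp (n : ℕ) {c : ℝ} (hc : 0 < c) :
    Summable fun x : Fin n → ℤ => Real.exp (-c * nrm x) := by
  have hn1 : (0 : ℝ) < (n : ℝ) + 1 := by positivity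
  have ha : 0 < c / ((n : ℝ) + 1) := div_pos hc hn1
  have hf := exs_int ha
  set a := c / ((n : ℝ) + 1) with hadef
  refine Summable.of_nonneg_of_le (fun x => (Real.exp_pos _).le) (fun x => ?_)
    (exs_prod n (fun k : ℤ => Real.exp (-a * |(k : ℝ)|)) (fun k => (Real.exp_pos _).le) hf)
  rw [← Real.exp_sum]
  refine Real.exp_le_exp.2 ?_
  have h1 : ∀ i : Fin n, |(x i : ℝ)| ≤ (nrm x : ℝ) := by
    intro i
    have h : (x i).natAbs ≤ nrm x :=
      Finset.le_sup (f := fun i => (x i).natAbs) (Finset.mem_univ i)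
    have h2 : (((x i).natAbs : ℕ) : ℝ) ≤ (nrm x : ℝ) := by exact_mod_cast h
    rwa [Nat.cast_natAbs, Int.cast_abs] at h2
  have h2 : ∑ i : Fin n, |(x i : ℝ)| ≤ (n : ℝ) * (nrm x : ℝ) := by
    refine (Finset.sum_le_sum fun i _ => h1 i).trans (le_of_eq ?_)
    rw [Finset.sum_const, Finset.card_univ, Fintype.card_fin, nsmul_eq_mul]
  rw [← Finset.mul_sum]
  have h3 : a * ∑ i : Fin n, |(x i : ℝ)| ≤ a * (((n : ℝ) + 1) * (nrm x : ℝ)) := by
    refine mul_le_mul_of_nonneg_left (h2.trans ?_) ha.le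
    have : (0 : ℝ) ≤ (nrm x : ℝ) := Nat.cast_nonneg _
    linarith
  have h4 : a * (((n : ℝ) + 1) * (nrm x : ℝ)) = c * (nrm x : ℝ) := by
    rw [hadef, ← mul_assoc, div_mul_cancel₀ c hn1.ne']
  linarith

theorem expSum_lt_top (n : ℕ) (ι : Type) [Fintype ι] {c : ℝ} (hc : 0 < c) :
    ∃ S : ℝ, 0 < S ∧ ∀ x : Fin n → ℤ,
      ∑' z : W n ι, ENNReal.ofReal (Real.exp (-c * nrm (x - z.1))) ≤ ENNReal.ofReal S := by
  have hs := summable_exp n hc
  have hT : 0 ≤ ∑' x : Fin n → ℤ, Real.exp (-c * nrm x) := tsum_nonneg fun x => (Real.exp_pos _).le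
  refine ⟨(Fintype.card ι : ℝ) * (∑' x : Fin n → ℤ, Real.exp (-c * nrm x)) + 1, by positivity, ?_⟩
  intro x
  have h1 : ∑' z : W n ι, ENNReal.ofReal (Real.exp (-c * nrm (x - z.1))) =
      ∑' a : Fin n → ℤ, ∑' _ : ι, ENNReal.ofReal (Real.exp (-c * nrm (x - a))) :=
    ENNReal.tsum_prod (f := fun (a : Fin n → ℤ) (_ : ι) =>
      ENNReal.ofReal (Real.exp (-c * nrm (x - a))))
  have h2 : ∀ a : Fin n → ℤ, ∑' _ : ι, ENNReal.ofReal (Real.exp (-c * nrm (x - a))) =
      (Fintype.card ι : ENNReal) * ENNReal.ofReal (Real.exp (-c * nrm (x - a))) := by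
    intro a
    rw [tsum_fintype, Finset.sum_const, Finset.card_univ, nsmul_eq_mul]
  have h3 : ∑' a : Fin n → ℤ, ENNReal.ofReal (Real.exp (-c * nrm (x - a))) =
      ∑' a : Fin n → ℤ, ENNReal.ofReal (Real.exp (-c * nrm a)) :=
    (Equiv.subLeft x).tsum_eq (fun a : Fin n → ℤ => ENNReal.ofReal (Real.exp (-c * nrm a)))
  rw [h1]
  simp_rw [h2]
  rw [ENNReal.tsum_mul_left, h3, ← ENNReal.ofReal_tsum_of_nonneg (fun a => (Real.exp_pos _).le) hs,
    ← ENNReal.ofReal_natCast, ← ENNReal.ofReal_mul (Nat.cast_nonneg _)]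
  exact ENNReal.ofReal_le_ofReal (by linarith)

theorem conv_exp (n : ℕ) (ι : Type) [Fintype ι] {c c' : ℝ} (hc : 0 < c) (hc' : 0 < c') :
    ∃ S : ℝ, 0 < S ∧ ∀ x y : Fin n → ℤ,
      ∑' z : W n ι, ENNReal.ofReal (Real.exp (-c * nrm (x - z.1))) *
        ENNReal.ofReal (Real.exp (-c' * nrm (z.1 - y))) ≤
      ENNReal.ofReal (S * Real.exp (-(min c c' / 2) * nrm (x - y))) := by
  have hm : 0 < min c c' / 2 := by
    have := lt_min hc hc'
    linarith
  obtain ⟨S, hS, h⟩ := expSum_lt_top n ι hm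
  refine ⟨S, hS, ?_⟩
  intro x y
  have hterm : ∀ z : W n ι, ENNReal.ofReal (Real.exp (-c * nrm (x - z.1))) *
      ENNReal.ofReal (Real.exp (-c' * nrm (z.1 - y))) ≤
      ENNReal.ofReal (Real.exp (-(min c c' / 2) * nrm (x - y))) *
        ENNReal.ofReal (Real.exp (-(min c c' / 2) * nrm (x - z.1))) := by
    intro z
    rw [← ENNReal.ofReal_mul (Real.exp_pos _).le, ← ENNReal.ofReal_mul (Real.exp_pos _).le,
      ← Real.exp_add, ← Real.exp_add]
    refine ENNReal.ofReal_le_ofReal (Real.exp_le_exp.2 ?_)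
    have htri : ((nrm (x - y) : ℕ) : ℝ) ≤ (nrm (x - z.1) : ℝ) + (nrm (z.1 - y) : ℝ) := by
      exact_mod_cast nrm_tri x y z.1
    have hA : (0 : ℝ) ≤ (nrm (x - z.1) : ℝ) := Nat.cast_nonneg _
    have hB : (0 : ℝ) ≤ (nrm (z.1 - y) : ℝ) := Nat.cast_nonneg _
    have h1 : min c c' * (nrm (x - z.1) : ℝ) ≤ c * (nrm (x - z.1) : ℝ) :=
      mul_le_mul_of_nonneg_right (min_le_left _ _) hA
    have h2 : min c c' * (nrm (z.1 - y) : ℝ) ≤ c' * (nrm (z.1 - y) : ℝ) :=
      mul_le_mul_of_nonneg_right (min_le_right _ _) hB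
    have h3 : min c c' / 2 * (nrm (x - y) : ℝ) ≤
        min c c' / 2 * ((nrm (x - z.1) : ℝ) + (nrm (z.1 - y) : ℝ)) :=
      mul_le_mul_of_nonneg_left htri hm.le
    have h4 : 0 ≤ min c c' / 2 * (nrm (z.1 - y) : ℝ) := mul_nonneg hm.le hB
    linarith
  calc ∑' z : W n ι, ENNReal.ofReal (Real.exp (-c * nrm (x - z.1))) *
        ENNReal.ofReal (Real.exp (-c' * nrm (z.1 - y)))
      ≤ ∑' z : W n ι, ENNReal.ofReal (Real.exp (-(min c c' / 2) * nrm (x - y))) *
        ENNReal.ofReal (Real.exp (-(min c c' / 2) * nrm (x - z.1))) := ENNReal.tsum_le_tsum hterm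
    _ = ENNReal.ofReal (Real.exp (-(min c c' / 2) * nrm (x - y))) *
        ∑' z : W n ι, ENNReal.ofReal (Real.exp (-(min c c' / 2) * nrm (x - z.1))) :=
        ENNReal.tsum_mul_left
    _ ≤ ENNReal.ofReal (Real.exp (-(min c c' / 2) * nrm (x - y))) * ENNReal.ofReal S := by
        gcongr
        exact h x
    _ = ENNReal.ofReal (S * Real.exp (-(min c c' / 2) * nrm (x - y))) := by
        rw [← ENNReal.ofReal_mul (Real.exp_pos _).le, mul_comm]

end IPC.DC
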