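import Pool.Agent.Lib.MP_25e40f_pr.DC.Exs

/-!
# MP_25e40f_pr, stream DC, file Kml: products of good families (JOB Kml)

`GF_kmul`:
* `inv`: reindex the sum over `z` by the translation `z ↦ (z.1 + a, z.2)` (`Equiv.tsum_eq`).
* `dec`: `f ≤ C e^{-c}`, `g ≤ C' e^{-c'}`: `∑_z f g ≤ C C' ∑_z ...`, `conv_exp`; `ENNReal.ofReal_mul`.
* `cont`: fix `x, y`. For `0 ≤ p ≤ p₁`: `f p x z * g p z y ≤ b z := ofReal(C e^{-c|x-z|}) * ofReal(C' e^{-c'|z-y|})`, `∑ b z < ∞`
  (`conv_exp`). The real function `p ↦ ∑' z, (f p x z * g p z y).toReal` is continuous on `[0, p₁]` by `continuousOn_tsum`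
  (each term is continuous: `ContinuousOn` of `toReal` at finite values `ENNReal.continuousOn_toReal`, bounded by the summable
  `(b z).toReal`), and `∑' z, f p x z * g p z y = ENNReal.ofReal` of it (`ENNReal.tsum_toReal_eq`, all terms finite,
  `ENNReal.ofReal_toReal`); `ENNReal.continuous_ofReal`.
-/

set_option autoImplicit false
set_option linter.unusedSectionVars false

noncomputable section

open Finset Filter
open scoped Classical

namespace IPC.DC

theorem GF_kmul {n : ℕ} {ι : Type} [Fintype ι] {p₁ : ℝ} {f g : ℝ → W n ι → W n ι → ENNReal}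
    (hf : GF n ι p₁ f) (hg : GF n ι p₁ g) : GF n ι p₁ (fun p => kmul (f p) (g p)) := by
  obtain ⟨C, c, hC, hc, hfd⟩ := hf.dec
  obtain ⟨C', c', hC', hc', hgd⟩ := hg.dec
  obtain ⟨S, hS, hconv⟩ := conv_exp n ι hc hc'
  have hterm : ∀ p, 0 ≤ p → p ≤ p₁ → ∀ x y z : W n ι, f p x z * g p z y ≤
      ENNReal.ofReal C * ENNReal.ofReal C' * (ENNReal.ofReal (Real.exp (-c * nrm (x.1 - z.1))) *
        ENNReal.ofReal (Real.exp (-c' * nrm (z.1 - y.1)))) := by
    intro p h0 h1 x y z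
    refine (mul_le_mul' (hfd p h0 h1 x z) (hgd p h0 h1 z y)).trans (le_of_eq ?_)
    rw [ENNReal.ofReal_mul hC.le, ENNReal.ofReal_mul hC'.le]
    ring
  have hsum : ∀ x y : W n ι, ∑' z : W n ι, ENNReal.ofReal C * ENNReal.ofReal C' *
      (ENNReal.ofReal (Real.exp (-c * nrm (x.1 - z.1))) *
        ENNReal.ofReal (Real.exp (-c' * nrm (z.1 - y.1)))) ≤
      ENNReal.ofReal (C * C' * S * Real.exp (-(min c c' / 2) * nrm (x.1 - y.1))) := by
    intro x y
    rw [ENNReal.tsum_mul_left]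
    refine (mul_le_mul' le_rfl (hconv x.1 y.1)).trans (le_of_eq ?_)
    rw [← ENNReal.ofReal_mul hC.le, ← ENNReal.ofReal_mul (by positivity)]
    congr 1
    ring
  refine ⟨?_, ?_, ?_⟩
  · intro p h0 h1 a x y
    let e : W n ι ≃ W n ι := Equiv.prodCongr (Equiv.addRight a) (Equiv.refl ι)
    have he : ∀ z : W n ι, e z = (z.1 + a, z.2) := fun z => rfl
    change ∑' z, f p (x.1 + a, x.2) z * g p z (y.1 + a, y.2) = ∑' z, f p x z * g p z y
    rw [← e.tsum_eq (fun z => f p (x.1 + a, x.2) z * g p z (y.1 + a, y.2))]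
    refine tsum_congr fun z => ?_
    rw [he z, hf.inv p h0 h1 a x z, hg.inv p h0 h1 a z y]
  · refine ⟨C * C' * S, min c c' / 2, by positivity, half_pos (lt_min hc hc'), ?_⟩
    intro p h0 h1 x y
    exact (ENNReal.tsum_le_tsum fun z => hterm p h0 h1 x y z).trans (hsum x y)
  · intro x y
    have hff : ∀ p ∈ Set.Icc 0 p₁, ∀ z, f p x z ≠ ⊤ := fun p hp z =>
      ne_top_of_le_ne_top ENNReal.ofReal_ne_top (hfd p hp.1 hp.2 x z)
    have hgf : ∀ p ∈ Set.Icc 0 p₁, ∀ z, g p z y ≠ ⊤ := fun p hp z =>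
      ne_top_of_le_ne_top ENNReal.ofReal_ne_top (hgd p hp.1 hp.2 z y)
    obtain ⟨B, hB⟩ : ∃ B : W n ι → ENNReal, B = fun z => ENNReal.ofReal C * ENNReal.ofReal C' *
      (ENNReal.ofReal (Real.exp (-c * nrm (x.1 - z.1))) *
        ENNReal.ofReal (Real.exp (-c' * nrm (z.1 - y.1)))) := ⟨_, rfl⟩
    have hBs : ∑' z, B z ≠ ⊤ := by
      rw [hB]
      exact ne_top_of_le_ne_top ENNReal.ofReal_ne_top (hsum x y)
    have hBf : ∀ z, B z ≠ ⊤ := fun z => ENNReal.ne_top_of_tsum_ne_top hBs z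
    have hBt : ∀ p ∈ Set.Icc 0 p₁, ∀ z, f p x z * g p z y ≤ B z := by
      intro p hp z
      rw [hB]
      exact hterm p hp.1 hp.2 x y z
    have hcont : ContinuousOn (fun p => ∑' z, (f p x z * g p z y).toReal) (Set.Icc 0 p₁) := by
      refine continuousOn_tsum (u := fun z => (B z).toReal) (fun z => ?_)
        (ENNReal.summable_toReal hBs) (fun z p hp => ?_)
      · have h1 : ContinuousOn (fun p => (f p x z).toReal) (Set.Icc 0 p₁) :=
          ENNReal.continuousOn_toReal.comp (hf.cont x z) fun p hp => hff p hp z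
        have h2 : ContinuousOn (fun p => (g p z y).toReal) (Set.Icc 0 p₁) :=
          ENNReal.continuousOn_toReal.comp (hg.cont z y) fun p hp => hgf p hp z
        refine (h1.mul h2).congr fun p _ => ?_
        exact ENNReal.toReal_mul
      · rw [Real.norm_of_nonneg ENNReal.toReal_nonneg]
        exact ENNReal.toReal_mono (hBf z) (hBt p hp z)
    refine (ENNReal.continuous_ofReal.comp_continuousOn hcont).congr fun p hp => ?_
    have hfin : ∀ z, f p x z * g p z y ≠ ⊤ := fun z =>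
      ENNReal.mul_ne_top (hff p hp z) (hgf p hp z)
    have htot : ∑' z, f p x z * g p z y ≠ ⊤ :=
      ne_top_of_le_ne_top hBs (ENNReal.tsum_le_tsum fun z => hBt p hp z)
    change ∑' z, f p x z * g p z y = ENNReal.ofReal (∑' z, (f p x z * g p z y).toReal)
    rw [← ENNReal.tsum_toReal_eq hfin, ENNReal.ofReal_toReal htot]

end IPC.DC
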